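import Pool.Agent.H140.HN.Necklace

set_option autoImplicit false

/-!
# Completing a totally unimodular matrix
-/

namespace Pool.Agent.H140.HN

open Set Matrix

/-! ### Vector matroids -/

theorem finrank_span_image {α F W : Type} [Finite α] [Field F] [AddCommGroup W]
    [Module F W] (v : α → W) (I : Set α) (hI : LinearIndepOn F v I) :
    Module.finrank F (Submodule.span F (v '' I)) = I.ncard := by
  classical
  have : Fintype I := Fintype.ofFinite I
  have h := finrank_span_eq_card (R := F) (b := fun x : I => v x) hI
  rw [← Set.image_eq_range] at h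
  rw [h, ← Nat.card_eq_fintype_card]
  rfl

theorem aug {α F W : Type} [Finite α] [Field F] [AddCommGroup W]
    [Module F W] (v : α → W) (I J : Set α) (hI : LinearIndepOn F v I)
    (hJ : LinearIndepOn F v J) (hIJ : I.ncard < J.ncard) :
    ∃ e ∈ J, e ∉ I ∧ LinearIndepOn F v (insert e I) := by
  by_contra hcon
  push Not at hcon
  have hsub : ∀ e ∈ J, v e ∈ Submodule.span F (v '' I) := by
    intro e he
    by_contra hns
    have heI : e ∉ I := fun h => hns (Submodule.subset_span ⟨e, h, rfl⟩)
    exact hcon e he heI (hI.insert hns)
  have hle : Submodule.span F (v '' J) ≤ Submodule.span F (v '' I) := by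
    rw [Submodule.span_le]
    rintro _ ⟨e, he, rfl⟩
    exact hsub e he
  have : FiniteDimensional F (Submodule.span F (v '' I)) :=
    FiniteDimensional.span_of_finite F (Set.toFinite _)
  have := Submodule.finrank_mono hle
  rw [finrank_span_image v I hI, finrank_span_image v J hJ] at this
  omega

/-- The vector matroid of a finite family `v` of vectors, with ground set everything. -/
noncomputable def linMatroid {α : Type} [Finite α] (F : Type) [Field F] {W : Type} [AddCommGroup W]
    [Module F W] (v : α → W) : Matroid α :=
  (IndepMatroid.ofFinite (E := Set.univ) Set.finite_univ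
    (fun I => LinearIndepOn F v I)
    (linearIndepOn_empty F v)
    (fun _ _ hJ hIJ => hJ.mono hIJ)
    (fun I J hI hJ hIJ => aug v I J hI hJ hIJ)
    (fun I _ => Set.subset_univ I)).matroid

@[simp] theorem linMatroid_E {α : Type} [Finite α] (F : Type) [Field F] {W : Type} [AddCommGroup W]
    [Module F W] (v : α → W) : (linMatroid F v).E = Set.univ := rfl

@[simp] theorem linMatroid_indep {α : Type} [Finite α] (F : Type) [Field F] {W : Type}
    [AddCommGroup W] [Module F W] (v : α → W) (I : Set α) :
    (linMatroid F v).Indep I ↔ LinearIndepOn F v I := by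
  simp [linMatroid]

/-! ### Maximal good sets of sign vectors -/

/-- the matrix whose columns are the members of a finite set of sign vectors -/
def mat {r : ℕ} (S : Finset (Fin r → SignType)) : Matrix (Fin r) {s // s ∈ S} ℝ :=
  fun i s => ((s.1 i : SignType) : ℝ)

/-- totally unimodular, without zero columns and without antiparallel columns -/
def Good {r : ℕ} (S : Finset (Fin r → SignType)) : Prop :=
  (mat S).IsTotallyUnimodular ∧ ∀ s ∈ S, s ≠ 0 ∧ -s ∉ S

lemma cast_inj {a b : SignType} (h : (a : ℝ) = (b : ℝ)) : a = b := by
  cases a <;> cases b <;> norm_num at h <;> rfl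

lemma neg_ne {r : ℕ} {s : Fin r → SignType} (hs : s ≠ 0) : -s ≠ s := by
  intro h
  refine hs (funext fun i => ?_)
  have := congrFun h i
  rw [Pi.neg_apply] at this
  cases hsi : s i <;> rw [hsi] at this
  · rfl
  · exact absurd this (by decide)
  · exact absurd this (by decide)

lemma exists_complete {r : ℕ} (S₀ : Finset (Fin r → SignType)) (h : Good S₀)
    (hne : S₀.Nonempty) : ∃ S, S₀ ⊆ S ∧ Good S ∧ IsMaximallyTU (mat S) := by
  classical
  obtain ⟨S, hle, hmax⟩ := Finite.exists_le_maximal (p := fun S => Good S) h
  refine ⟨S, hle, hmax.prop, hmax.prop.1, fun v hv hTU => ?_⟩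
  have hent : ∀ i, ∃ s : SignType, (s : ℝ) = v i := by
    intro i
    obtain ⟨s, hs⟩ := hTU.apply i (Sum.inr ())
    exact ⟨s, by rw [hs]; rfl⟩
  choose s hs using hent
  have hsS : s ∉ S := fun h1 => hv ⟨s, h1⟩ 1 (by
    funext i
    rw [one_smul]
    exact (hs i).symm)
  have hnsS : -s ∉ S := fun h1 => hv ⟨-s, h1⟩ (-1) (by
    funext i
    rw [Pi.smul_apply]
    simp only [mat, Pi.neg_apply]
    rw [← hs i]
    cases s i <;> simp)
  have hs0 : s ≠ 0 := by
    intro h0
    obtain ⟨t, ht⟩ := hne
    refine hv ⟨t, hle ht⟩ 0 ?_
    funext i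
    rw [zero_smul, ← hs i, h0]
    simp
  have hgood : Good (insert s S) := by
    refine ⟨?_, ?_⟩
    · have : mat (insert s S) = (Matrix.fromCols (mat S) (Matrix.replicateCol Unit v)).submatrix id
          (fun t : {t // t ∈ insert s S} =>
            if h : t.1 ∈ S then Sum.inl ⟨t.1, h⟩ else Sum.inr ()) := by
        funext i t
        rw [Matrix.submatrix_apply]
        by_cases h : t.1 ∈ S
        · rw [dif_pos h]; rfl
        · rw [dif_neg h]
          have : t.1 = s := (Finset.mem_insert.1 t.2).resolve_right h
          rw [Matrix.fromCols_apply_inr, Matrix.replicateCol_apply, id, ← hs i]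
          show ((t.1 i : SignType) : ℝ) = _
          rw [this]
      rw [this]
      exact hTU.submatrix _ _
    · intro t ht
      rcases Finset.mem_insert.1 ht with rfl | ht
      · refine ⟨hs0, fun h => ?_⟩
        rcases Finset.mem_insert.1 h with h | h
        · exact neg_ne hs0 h
        · exact hnsS h
      · refine ⟨(hmax.prop.2 t ht).1, fun h => ?_⟩
        rcases Finset.mem_insert.1 h with h | h
        · refine hnsS ?_
          rw [← h, neg_neg]
          exact ht
        · exact (hmax.prop.2 t ht).2 h
  have := hmax.le_of_ge hgood (Finset.subset_insert s S)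
  exact hsS (this (Finset.mem_insert_self s S))

/-- the matroid of a set of sign vectors -/
noncomputable def mtr {r : ℕ} (S : Finset (Fin r → SignType)) : Matroid {s // s ∈ S} :=
  linMatroid ℝ (fun e i => mat S i e)

lemma mtr_rep {r : ℕ} (S : Finset (Fin r → SignType)) : Rep (mtr S) (fun e i => mat S i e) :=
  ⟨rfl, fun I => linMatroid_indep ℝ _ I⟩

lemma mtr_simple {r : ℕ} {S : Finset (Fin r → SignType)} (h : Good S) (e f : {s // s ∈ S}) :
    (mtr S).Indep {e, f} := by
  rw [(mtr_rep S).indep]
  have hne : ∀ e : {s // s ∈ S}, ∃ i, e.1 i ≠ 0 := fun e => by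
    by_contra hcon
    push Not at hcon
    exact (h.2 e.1 e.2).1 (funext hcon)
  by_cases hef : e = f
  · subst hef
    rw [Set.pair_eq_singleton, linearIndepOn_singleton_iff]
    intro h0
    obtain ⟨i, hi⟩ := hne e
    refine hi (cast_inj ?_)
    rw [SignType.coe_zero]
    exact congrFun h0 i
  · rw [LinearIndepOn.pair_iff _ hef]
    intro c d hcd
    have hcd' : ∀ i, c * ((e.1 i : SignType) : ℝ) + d * ((f.1 i : SignType) : ℝ) = 0 :=
      fun i => congrFun hcd i
    by_contra hcon
    -- `c = d` or `c = -d`, and neither is zero
    have hc : c = d ∨ c = -d := by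
      obtain ⟨i, hi⟩ := hne e
      obtain ⟨j, hj⟩ := hne f
      have h1 := hcd' i
      have h2 := hcd' j
      by_contra hno
      push Not at hno
      obtain ⟨hn1, hn2⟩ := hno
      cases hei : e.1 i
      · exact hi hei
      all_goals
        rw [hei] at h1
        cases hfi : f.1 i <;> rw [hfi] at h1 <;> simp at h1
      all_goals try exact hn1 (by linarith)
      all_goals try exact hn2 (by linarith)
      all_goals
        cases hfj : f.1 j
        · exact hj hfj
        all_goals
          rw [hfj, h1] at h2
          simp at h2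
          exact hcon ⟨h1, h2⟩
    rcases hc with hc | hc
    · have hd : d ≠ 0 := fun hd => hcon ⟨by rw [hc, hd], hd⟩
      refine (h.2 f.1 f.2).2 ?_
      have : -f.1 = e.1 := by
        funext i
        refine cast_inj ?_
        have := hcd' i
        rw [hc, ← mul_add] at this
        have h2 := (mul_eq_zero.1 this).resolve_left hd
        rw [Pi.neg_apply]
        have h3 : ((-(f.1 i) : SignType) : ℝ) = -((f.1 i : SignType) : ℝ) := by
          cases f.1 i <;> simp
        rw [h3]
        linarith
      rw [this]
      exact e.2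
    · have hd : d ≠ 0 := fun hd => hcon ⟨by rw [hc, hd, neg_zero], hd⟩
      refine hef (Subtype.ext (funext fun i => cast_inj ?_))
      have := hcd' i
      rw [hc] at this
      have h1 : d * (((f.1 i : SignType) : ℝ) - ((e.1 i : SignType) : ℝ)) = 0 := by linarith
      have h2 := (mul_eq_zero.1 h1).resolve_left hd
      linarith

end Pool.Agent.H140.HN
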