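import Mathlib

set_option autoImplicit false

/-!
# Hitting number of complete regular matroids: definitions
-/

namespace Pool.Agent.H140.HN

open Set

variable {α : Type}

/-- `A` represents `M`: the ground set of `M` is the set of all columns of `A`, and a set is
independent if and only if the columns are linearly independent. -/
def Represents {r : ℕ} (A : Matrix (Fin r) α ℝ) (M : Matroid α) : Prop :=
  M.E = univ ∧ ∀ I : Set α, M.Indep I ↔ LinearIndepOn ℝ (fun (e : α) (i : Fin r) => A i e) I

/-- `A` is maximally totally unimodular: it is totally unimodular, and appending any column that is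
not a scalar multiple of a column of `A` yields a matrix that is not totally unimodular. -/
def IsMaximallyTU {r : ℕ} (A : Matrix (Fin r) α ℝ) : Prop :=
  A.IsTotallyUnimodular ∧
  ∀ v : Fin r → ℝ, (∀ (e : α) (c : ℝ), v ≠ c • fun i => A i e) →
    ¬ (Matrix.fromCols A (Matrix.replicateCol Unit v)).IsTotallyUnimodular

/-- `M` is a complete regular matroid of rank `r`. -/
def IsCompleteRegular [Fintype α] (r : ℕ) (M : Matroid α) : Prop :=
  ∃ A : Matrix (Fin r) α ℝ, A.rank = r ∧ IsMaximallyTU A ∧ Represents A M

/-- The characteristic vector of a set. -/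
noncomputable def chi (B : Set α) : α → ℝ := B.indicator 1

/-- The base polytope of a matroid. -/
def basePolytope (M : Matroid α) : Set (α → ℝ) := convexHull ℝ {x | ∃ B, M.IsBase B ∧ x = chi B}

/-- The dimension of (the affine hull of) a set of points. -/
noncomputable def dim (P : Set (α → ℝ)) : ℕ := Module.finrank ℝ (vectorSpan ℝ P)

/-- `x(F)`, the sum of the coordinates of `x` at the elements of `F`. -/
noncomputable def mass [Fintype α] (F : Set α) (x : α → ℝ) : ℝ := ∑ e, F.indicator x e

/-- `F` is a flat: adding any further element increases the rank. -/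
def IsFlat (M : Matroid α) (F : Set α) : Prop :=
  F ⊆ M.E ∧ ∀ e ∈ M.E \ F, M.eRk F < M.eRk (insert e F)

/-- The face of the base polytope in which the inequality `x(F) ≤ rk(F)` is an equality. -/
def face [Fintype α] (M : Matroid α) (F : Set α) : Set (α → ℝ) :=
  {x ∈ basePolytope M | mass F x = ((M.eRk F).toNat : ℝ)}

/-- `F` is a flacet: a flat whose inequality `x(F) ≤ rk(F)` defines a facet of the base polytope,
that is, a (nonempty) face whose dimension is one less than the dimension of the polytope. -/
def IsFlacet [Fintype α] (M : Matroid α) (F : Set α) : Prop :=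
  IsFlat M F ∧ (face M F).Nonempty ∧ dim (face M F) + 1 = dim (basePolytope M)

/-- `𝒱` is a hitting family: a family of bases such that every flacet has full intersection with at
least one of its members. -/
def IsHitting [Fintype α] (M : Matroid α) (𝒱 : Finset (Set α)) : Prop :=
  (∀ B ∈ 𝒱, M.IsBase B) ∧ ∀ F, IsFlacet M F → ∃ B ∈ 𝒱, (B ∩ F).encard = M.eRk F

/-- The hitting number: the minimum size of a hitting family. -/
noncomputable def hittingNumber [Fintype α] (M : Matroid α) : ℕ :=
  sInf {n | ∃ 𝒱 : Finset (Set α), IsHitting M 𝒱 ∧ 𝒱.card = n}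

/-! ### Basic facts -/

lemma mass_chi [Fintype α] (F B : Set α) : mass F (chi B) = ((B ∩ F).ncard : ℝ) := by
  classical
  unfold mass chi
  have h : ∀ e, F.indicator (B.indicator (1 : α → ℝ)) e = if e ∈ B ∩ F then 1 else 0 := by
    intro e
    by_cases h1 : e ∈ F <;> by_cases h2 : e ∈ B <;> simp [h1, h2]
  rw [Finset.sum_congr rfl fun e _ => h e, Finset.sum_boole, Set.ncard_eq_toFinset_card']
  congr 2
  ext e
  simp

/-- `x(F)` as a linear functional -/
noncomputable def massL [Fintype α] (F : Set α) : (α → ℝ) →ₗ[ℝ] ℝ where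
  toFun := mass F
  map_add' x y := by
    unfold mass
    rw [← Finset.sum_add_distrib]
    exact Finset.sum_congr rfl fun e _ => by rw [Set.indicator_add']; rfl
  map_smul' c x := by
    unfold mass
    rw [RingHom.id_apply, smul_eq_mul, Finset.mul_sum]
    refine Finset.sum_congr rfl fun e _ => ?_
    by_cases h : e ∈ F <;> simp [h]

@[simp] lemma massL_apply [Fintype α] (F : Set α) (x : α → ℝ) : massL F x = mass F x := rfl

lemma vectorSpan_le_ker [Fintype α] (L : (α → ℝ) →ₗ[ℝ] ℝ) (P : Set (α → ℝ)) (c : ℝ)
    (h : ∀ x ∈ P, L x = c) : vectorSpan ℝ P ≤ LinearMap.ker L := by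
  rw [vectorSpan_def, Submodule.span_le]
  rintro _ ⟨x, hx, y, hy, rfl⟩
  simp only [vsub_eq_sub, SetLike.mem_coe, LinearMap.mem_ker, map_sub, h x hx, h y hy, sub_self]

lemma chi_mem [Fintype α] {M : Matroid α} {B : Set α} (hB : M.IsBase B) :
    chi B ∈ basePolytope M := subset_convexHull ℝ _ ⟨B, hB, rfl⟩

lemma eval_base [Fintype α] {M : Matroid α} (L : (α → ℝ) →ₗ[ℝ] ℝ) (c : ℝ)
    (h : ∀ B, M.IsBase B → L (chi B) = c) : ∀ x ∈ basePolytope M, L x = c := by
  intro x hx
  have : basePolytope M ⊆ {x | L x = c} := by
    refine convexHull_min ?_ ?_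
    · rintro _ ⟨B, hB, rfl⟩
      exact h B hB
    · intro y hy z hz s t _ _ hst
      simp only [mem_ofPred_eq] at hy hz ⊢
      rw [map_add, map_smul, map_smul, hy, hz, ← add_smul, hst, one_smul]
  exact this hx

end Pool.Agent.H140.HN
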