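import Pool.Agent.H140.HN.Defs

set_option autoImplicit false

/-!
# A circuit spanning a hyperplane of full rank makes it a flacet
-/

namespace Pool.Agent.H140.HN

open Set

variable {α : Type} [Fintype α] {r : ℕ}

/-- `M` is the vector matroid of the family `a`. -/
structure Rep (M : Matroid α) (a : α → Fin r → ℝ) : Prop where
  E : M.E = univ
  indep : ∀ I : Set α, M.Indep I ↔ LinearIndepOn ℝ a I

lemma Rep.ncard_le {M : Matroid α} {a : α → Fin r → ℝ} (h : Rep M a) {I : Set α}
    (hI : M.Indep I) : I.ncard ≤ r := by
  classical
  have := Fintype.ofFinite I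
  have h1 := (h.indep I).1 hI
  have h2 := LinearIndependent.fintype_card_le_finrank (R := ℝ) (b := fun x : I => a x) h1
  rw [Module.finrank_fin_fun] at h2
  rwa [← Nat.card_eq_fintype_card, Nat.card_coe_set_eq] at h2

lemma Rep.isBase {M : Matroid α} {a : α → Fin r → ℝ} (h : Rep M a) {I : Set α}
    (hI : M.Indep I) (hc : I.ncard = r) : M.IsBase I := by
  rw [Matroid.isBase_iff_maximal_indep]
  refine ⟨hI, fun J hJ hIJ => ?_⟩
  have h1 := h.ncard_le hJ
  have h2 : I = J := Set.eq_of_subset_of_ncard_le hIJ (by omega) (Set.toFinite _)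
  exact h2.symm.subset

/-- the zero set of a functional on the ground set -/
def zeroSet (a : α → Fin r → ℝ) (Z : (Fin r → ℝ) →ₗ[ℝ] ℝ) : Set α := {e | Z (a e) = 0}

omit [Fintype α] in
lemma insert_indep (a : α → Fin r → ℝ) (Z : (Fin r → ℝ) →ₗ[ℝ] ℝ) {I : Set α}
    (hI : LinearIndepOn ℝ a I) (hIF : I ⊆ zeroSet a Z) {g : α} (hg : Z (a g) ≠ 0) :
    LinearIndepOn ℝ a (insert g I) := by
  refine hI.insert fun h => hg ?_
  have : Submodule.span ℝ (a '' I) ≤ LinearMap.ker Z := by
    rw [Submodule.span_le]
    rintro _ ⟨e, he, rfl⟩
    exact hIF he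
  exact this h

omit [Fintype α] in
lemma chi_insert_sub [DecidableEq α] {I : Set α} {x y : α} (hx : x ∉ I) (hy : y ∉ I) :
    chi (insert x I) - chi (insert y I) = (Pi.single x 1 - Pi.single y 1 : α → ℝ) := by
  funext e
  simp only [chi, Pi.sub_apply, Set.indicator_apply, Set.mem_insert_iff, Pi.one_apply,
    Pi.single_apply]
  by_cases h1 : e = x <;> by_cases h2 : e = y <;> by_cases h3 : e ∈ I <;>
    simp_all

lemma facet (M : Matroid α) (a : α → Fin r → ℝ) (hM : Rep M a)
    (Z : (Fin r → ℝ) →ₗ[ℝ] ℝ) (K : Set α) (hK : K ⊆ zeroSet a Z) (hKc : K.ncard = r)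
    (hKi : ∀ k ∈ K, LinearIndepOn ℝ a (K \ {k})) (g : α) (hg : Z (a g) ≠ 0)
    (h0 : ∀ e, a e ≠ 0) (B' : Set α) (hB' : M.IsBase B')
    (hB'F : (B' ∩ zeroSet a Z).ncard ≠ r - 1) :
    IsFlacet M (zeroSet a Z) ∧ M.eRk (zeroSet a Z) = ((r - 1 : ℕ) : ℕ∞) := by
  classical
  have hgF : g ∉ zeroSet a Z := hg
  have hr : 0 < r := by
    rcases Nat.eq_zero_or_pos r with h | h
    · exfalso
      subst h
      exact h0 g (funext fun i => i.elim0)
    · exact h
  obtain ⟨k0, hk0⟩ : K.Nonempty := by
    rw [← Set.ncard_pos (Set.toFinite K)]; omega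
  have hKd : ∀ k ∈ K, (K \ {k}).ncard = r - 1 := fun k hk => by
    rw [Set.ncard_sdiff_singleton_of_mem hk, hKc]
  have hgK : ∀ k, g ∉ K \ {k} := fun k h => hgF (hK h.1)
  have hbase : ∀ g', Z (a g') ≠ 0 → ∀ k ∈ K, M.IsBase (insert g' (K \ {k})) := by
    intro g' hg' k hk
    have hg'K : g' ∉ K \ {k} := fun h => hg' (hK h.1)
    refine hM.isBase ((hM.indep _).2
      (insert_indep a Z (hKi k hk) (fun x hx => hK hx.1) hg')) ?_
    rw [Set.ncard_insert_of_notMem hg'K, hKd k hk]
    omega
  have hrank : ∀ I, M.Indep I → I ⊆ zeroSet a Z → I.ncard ≤ r - 1 := by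
    intro I hI hIF
    have h1 : M.Indep (insert g I) :=
      (hM.indep _).2 (insert_indep a Z ((hM.indep _).1 hI) hIF hg)
    have h2 := hM.ncard_le h1
    rw [Set.ncard_insert_of_notMem (fun h => hgF (hIF h))] at h2
    omega
  have hbasis : M.IsBasis (K \ {k0}) (zeroSet a Z) := by
    refine Matroid.Indep.isBasis_of_forall_insert ((hM.indep _).2 (hKi k0 hk0))
      (fun x hx => hK hx.1) ?_
    intro e he
    refine ⟨fun hins => ?_, by rw [hM.E]; exact Set.subset_univ _⟩
    have h1 := hrank _ hins (Set.insert_subset he.1 fun x hx => hK hx.1)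
    rw [Set.ncard_insert_of_notMem he.2, hKd k0 hk0] at h1
    omega
  have hrk : M.eRk (zeroSet a Z) = ((r - 1 : ℕ) : ℕ∞) := by
    rw [hbasis.eRk_eq_encard, ← hKd k0 hk0, (Set.toFinite (K \ {k0})).cast_ncard_eq]
  refine ⟨⟨⟨?_, ?_⟩, ?_, ?_⟩, hrk⟩
  · rw [hM.E]; exact Set.subset_univ _
  · intro e he
    have h1 : M.Indep (insert e (K \ {k0})) := (hbase e he.2 k0 hk0).indep
    have h2 := h1.encard_le_eRk_of_subset
      (Set.insert_subset_insert (fun x hx => hK hx.1) : insert e (K \ {k0}) ⊆
        insert e (zeroSet a Z))
    refine lt_of_lt_of_le ?_ h2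
    rw [hrk, ← (Set.toFinite (insert e (K \ {k0}))).cast_ncard_eq,
      Set.ncard_insert_of_notMem (fun h => he.2 (hK h.1)), hKd k0 hk0]
    exact_mod_cast Nat.lt_succ_self _
  · refine ⟨chi (insert g (K \ {k0})), chi_mem (hbase g hg k0 hk0), ?_⟩
    rw [mass_chi, hrk, ENat.toNat_natCast]
    congr 1
    rw [Set.insert_inter_of_notMem hgF, Set.inter_eq_left.2 (fun x hx => hK hx.1), hKd k0 hk0]
  · -- dimensions
    have hface : ∀ B, M.IsBase B → (B ∩ zeroSet a Z).ncard = r - 1 →
        chi B ∈ face M (zeroSet a Z) := by
      intro B hB hc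
      refine ⟨chi_mem hB, ?_⟩
      rw [mass_chi, hrk, ENat.toNat_natCast, hc]
    set D := vectorSpan ℝ (face M (zeroSet a Z)) with hD
    set P := vectorSpan ℝ (basePolytope M) with hP
    have hDP : D ≤ P := vectorSpan_mono ℝ fun x hx => hx.1
    have hint : ∀ k ∈ K, (insert g (K \ {k}) ∩ zeroSet a Z).ncard = r - 1 := by
      intro k hk
      rw [Set.insert_inter_of_notMem hgF, Set.inter_eq_left.2 (fun x hx => hK hx.1), hKd k hk]
    have hkk : ∀ k ∈ K, (Pi.single k 1 - Pi.single k0 1 : α → ℝ) ∈ D := by
      intro k hk
      by_cases hkk0 : k = k0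
      · rw [hkk0, sub_self]; exact D.zero_mem
      have h1 := hface _ (hbase g hg k0 hk0) (hint k0 hk0)
      have h2 := hface _ (hbase g hg k hk) (hint k hk)
      have h3 := vsub_mem_vectorSpan ℝ h1 h2
      have e1 : insert g (K \ {k0}) = insert k (insert g (K \ {k, k0})) := by
        ext x
        simp only [Set.mem_insert_iff, Set.mem_sdiff, Set.mem_singleton_iff]
        constructor
        · rintro (h | ⟨h, h'⟩)
          · exact Or.inr (Or.inl h)
          · by_cases hx : x = k
            · exact Or.inl hx
            · right; right; exact ⟨h, by tauto⟩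
        · rintro (h | h | ⟨h, h'⟩)
          · right; subst h; exact ⟨hk, hkk0⟩
          · exact Or.inl h
          · right; exact ⟨h, by tauto⟩
      have e2 : insert g (K \ {k}) = insert k0 (insert g (K \ {k, k0})) := by
        ext x
        simp only [Set.mem_insert_iff, Set.mem_sdiff, Set.mem_singleton_iff]
        constructor
        · rintro (h | ⟨h, h'⟩)
          · exact Or.inr (Or.inl h)
          · by_cases hx : x = k0
            · exact Or.inl hx
            · right; right; exact ⟨h, by tauto⟩
        · rintro (h | h | ⟨h, h'⟩)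
          · right; subst h; exact ⟨hk0, fun h => hkk0 h.symm⟩
          · exact Or.inl h
          · right; exact ⟨h, by tauto⟩
      rw [vsub_eq_sub, e1, e2, chi_insert_sub] at h3
      · exact h3
      · simp only [Set.mem_insert_iff, Set.mem_sdiff, Set.mem_singleton_iff]
        rintro (h | h)
        · subst h; exact hgF (hK hk)
        · tauto
      · simp only [Set.mem_insert_iff, Set.mem_sdiff, Set.mem_singleton_iff]
        rintro (h | h)
        · subst h; exact hgF (hK hk0)
        · tauto
    have htop : D ⊔ Submodule.span ℝ ({Pi.single k0 1, Pi.single g 1} : Set (α → ℝ)) = ⊤ := by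
      set S := D ⊔ Submodule.span ℝ ({Pi.single k0 1, Pi.single g 1} : Set (α → ℝ)) with hS
      have hDS : D ≤ S := le_sup_left
      have hk0S : (Pi.single k0 1 : α → ℝ) ∈ S :=
        (le_sup_right : _ ≤ S) (Submodule.subset_span (by simp))
      have hgS : (Pi.single g 1 : α → ℝ) ∈ S :=
        (le_sup_right : _ ≤ S) (Submodule.subset_span (by simp))
      have hKS : ∀ k ∈ K, (Pi.single k 1 : α → ℝ) ∈ S := by
        intro k hk
        have := S.add_mem (hDS (hkk k hk)) hk0S
        rwa [sub_add_cancel] at this
      have hall : ∀ e, (Pi.single e 1 : α → ℝ) ∈ S := by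
        intro e
        by_cases heF : e ∈ zeroSet a Z
        · by_cases heK : e ∈ K
          · exact hKS e heK
          -- extend `{e, g}` to a base inside `{e, g} ∪ (K \ {k0})`
          have hind : M.Indep {e, g} := by
            rw [hM.indep, Set.pair_comm]
            refine insert_indep a Z ?_ (by simpa using heF) hg
            rw [linearIndepOn_singleton_iff]
            exact h0 e
          obtain ⟨B, hB, hsub, hBsub⟩ := hind.exists_isBase_subset_union_isBase
            (hbase g hg k0 hk0)
          have hBc : B.ncard = r := by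
            rw [hB.ncard_eq_ncard_of_isBase (hbase g hg k0 hk0),
              Set.ncard_insert_of_notMem (hgK k0), hKd k0 hk0]
            omega
          have hsub' : B ⊆ insert e (insert g (K \ {k0})) := by
            intro x hx
            rcases hBsub hx with h | h
            · rcases h with h | h
              · exact Or.inl h
              · exact Or.inr (Or.inl h)
            · exact Or.inr h
          have heg : e ≠ g := fun h => hgF (h ▸ heF)
          have hcard : (insert e (insert g (K \ {k0}))).ncard = r + 1 := by
            rw [Set.ncard_insert_of_notMem, Set.ncard_insert_of_notMem (hgK k0), hKd k0 hk0]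
            · omega
            · rintro (h | h)
              · exact heg h
              · exact heK h.1
          have hdiff : (insert e (insert g (K \ {k0})) \ B).ncard = 1 := by
            rw [Set.ncard_sdiff hsub' (Set.toFinite _), hcard, hBc]
            omega
          obtain ⟨k1, hk1⟩ := Set.ncard_eq_one.1 hdiff
          have hk1m : k1 ∈ insert e (insert g (K \ {k0})) \ B := by rw [hk1]; rfl
          have hk1K : k1 ∈ K \ {k0} := by
            rcases hk1m.1 with h | h | h
            · exact absurd (h ▸ hsub (by simp)) hk1m.2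
            · exact absurd (h ▸ hsub (by simp)) hk1m.2
            · exact h
          have hBeq : B = insert e ((insert g (K \ {k0})) \ {k1}) := by
            have : B = insert e (insert g (K \ {k0})) \ {k1} := by
              rw [← hk1, Set.sdiff_sdiff_cancel_left hsub']
            rw [this, Set.insert_sdiff_of_notMem]
            intro h
            exact heK (h ▸ hk1K.1)
          have hB0eq : insert g (K \ {k0}) = insert k1 ((insert g (K \ {k0})) \ {k1}) := by
            rw [Set.insert_sdiff_singleton]
            exact (Set.insert_eq_of_mem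
              (show k1 ∈ insert g (K \ {k0}) from Or.inr hk1K)).symm
          have hBint : (B ∩ zeroSet a Z).ncard = r - 1 := by
            have h1 : B ∩ zeroSet a Z = B \ {g} := by
              ext x
              constructor
              · rintro ⟨h, h'⟩
                exact ⟨h, fun hxg => hgF (hxg ▸ h')⟩
              · rintro ⟨h, h'⟩
                refine ⟨h, ?_⟩
                rcases hsub' h with h2 | h2 | h2
                · rw [h2]; exact heF
                · exact absurd h2 h'
                · exact hK h2.1
            rw [h1, Set.ncard_sdiff_singleton_of_mem (hsub (by simp)), hBc]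
          have h1 := hface _ hB hBint
          have h2 := hface _ (hbase g hg k0 hk0) (hint k0 hk0)
          have h3 := vsub_mem_vectorSpan ℝ h1 h2
          rw [vsub_eq_sub, hBeq] at h3
          rw [hB0eq] at h3
          rw [Set.insert_sdiff_of_mem _ (Set.mem_singleton k1), Set.sdiff_sdiff,
            Set.union_self] at h3
          rw [chi_insert_sub] at h3
          · have := S.add_mem (hDS h3) (hKS k1 hk1K.1)
            rwa [sub_add_cancel] at this
          · rintro ⟨h | h, _⟩
            · exact heg h
            · exact heK h.1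
          · simp
        · have h1 := hface _ (hbase e heF k0 hk0) (by
            rw [Set.insert_inter_of_notMem heF, Set.inter_eq_left.2 (fun x hx => hK hx.1),
              hKd k0 hk0])
          have h2 := hface _ (hbase g hg k0 hk0) (hint k0 hk0)
          have h3 := vsub_mem_vectorSpan ℝ h1 h2
          rw [vsub_eq_sub, chi_insert_sub (fun h => heF (hK h.1)) (hgK k0)] at h3
          have := S.add_mem (hDS h3) hgS
          rwa [sub_add_cancel] at this
      rw [eq_top_iff]
      intro x _
      rw [← LinearMap.sum_single_apply (φ := fun _ : α => ℝ) x]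
      refine Submodule.sum_mem _ fun e _ => ?_
      have : (LinearMap.single ℝ (fun _ : α => ℝ) e) (x e) = x e • (Pi.single e 1 : α → ℝ) := by
        ext i
        by_cases h : i = e
        · subst h; simp
        · simp [h]
      have h2 := S.smul_mem (x e) (hall e)
      rw [← this] at h2
      exact h2
    have hn : Fintype.card α ≤ Module.finrank ℝ D + 2 := by
      have h1 := Submodule.finrank_add_le_finrank_add_finrank D
        (Submodule.span ℝ ({Pi.single k0 1, Pi.single g 1} : Set (α → ℝ)))
      rw [htop, finrank_top, Module.finrank_fintype_fun_eq_card] at h1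
      have h2 : Module.finrank ℝ
          (Submodule.span ℝ ({Pi.single k0 1, Pi.single g 1} : Set (α → ℝ))) ≤ 2 := by
        have := finrank_span_le_card (R := ℝ) ({Pi.single k0 1, Pi.single g 1} : Set (α → ℝ))
        refine this.trans ?_
        rw [Set.toFinset_card]
        rw [← Nat.card_eq_fintype_card, Nat.card_coe_set_eq]
        exact Set.ncard_insert_le _ _ |>.trans (by simp)
      omega
    -- `D < P`
    have hlt : Module.finrank ℝ D < Module.finrank ℝ P := by
      refine Submodule.finrank_lt_finrank_of_lt (lt_of_le_of_ne hDP ?_)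
      intro heq
      have h1 : D ≤ LinearMap.ker (massL (zeroSet a Z)) :=
        vectorSpan_le_ker _ _ _ fun x hx => hx.2
      have h2 := vsub_mem_vectorSpan ℝ (chi_mem hB') (chi_mem (hbase g hg k0 hk0))
      rw [← hP, ← heq] at h2
      have h3 := h1 h2
      rw [LinearMap.mem_ker, vsub_eq_sub, map_sub, massL_apply, massL_apply, mass_chi, mass_chi,
        hint k0 hk0, sub_eq_zero] at h3
      exact hB'F (by exact_mod_cast h3)
    have hle : Module.finrank ℝ P + 1 ≤ Fintype.card α := by
      have h1 : P ≤ LinearMap.ker (massL (univ : Set α)) := by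
        refine vectorSpan_le_ker _ _ (r : ℝ) (eval_base _ _ fun B hB => ?_)
        rw [massL_apply, mass_chi, Set.inter_univ,
          hB.ncard_eq_ncard_of_isBase (hbase g hg k0 hk0),
          Set.ncard_insert_of_notMem (hgK k0), hKd k0 hk0]
        congr 1
        omega
      have h2 : Module.finrank ℝ (LinearMap.ker (massL (univ : Set α))) + 1 = Fintype.card α := by
        have hne : massL (univ : Set α) ≠ 0 := by
          intro h
          have := LinearMap.congr_fun h (chi {g})
          rw [massL_apply, mass_chi] at this
          simp at this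
        have := Module.Dual.finrank_ker_add_one_of_ne_zero (K := ℝ) (f := massL (univ : Set α)) hne
        rw [this, Module.finrank_fintype_fun_eq_card]
      have h3 := Submodule.finrank_mono h1
      omega
    show Module.finrank ℝ D + 1 = Module.finrank ℝ P
    omega

end Pool.Agent.H140.HN
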