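import Pool.Agent.H140.HN.Complete

set_option autoImplicit false

/-!
# Counting flacets
-/

namespace Pool.Agent.H140.HN

open Set Matrix

variable {m : ℕ} [NeZero m]

/-- a numbering of the edges -/
noncomputable def eps (m : ℕ) : Fin (4 * m) ≃ Edge m :=
  (Fintype.equivFinOfCardEq (by
    simp only [Fintype.card_prod, Fintype.card_fin, Fintype.card_bool]
    ring)).symm

/-- the columns of `[I | N]`, renumbered -/
noncomputable def scol (k : Edge m ⊕ Vert m) : Fin (4 * m) → SignType := fun i => col m k (eps m i)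

lemma scol_injective : Function.Injective (scol (m := m)) := by
  intro k l h
  refine col_injective (funext fun e => ?_)
  have := congrFun h ((eps m).symm e)
  simpa [scol] using this

lemma scol_ne_zero (k : Edge m ⊕ Vert m) : scol k ≠ 0 := by
  intro h
  refine col_ne_zero k (funext fun e => ?_)
  have := congrFun h ((eps m).symm e)
  simpa [scol] using this

lemma scol_ne_neg (k l : Edge m ⊕ Vert m) : scol k ≠ -scol l := by
  intro h
  refine col_ne_neg k l (funext fun e => ?_)
  have := congrFun h ((eps m).symm e)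
  simpa [scol] using this

/-- the set of columns of `[I | N]` -/
noncomputable def base (m : ℕ) [NeZero m] : Finset (Fin (4 * m) → SignType) :=
  open Classical in Finset.univ.image scol

lemma mem_base (k : Edge m ⊕ Vert m) : scol k ∈ base m := by
  classical
  exact Finset.mem_image_of_mem _ (Finset.mem_univ k)

lemma good_base : Good (base m) := by
  classical
  have hex : ∀ s : {s // s ∈ base m}, ∃ k : Edge m ⊕ Vert m, scol k = s.1 := by
    rintro ⟨s, hs⟩
    obtain ⟨k, _, hk⟩ := Finset.mem_image.1 hs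
    exact ⟨k, hk⟩
  choose g hg using hex
  refine ⟨?_, ?_⟩
  · have : mat (base m) = ((Matrix.fromCols (1 : Matrix (Edge m) (Edge m) ℤ) (net m)).map
        (Int.castRingHom ℝ)).submatrix (eps m) g := by
      funext i s
      rw [Matrix.submatrix_apply, ← col_real]
      show ((s.1 i : SignType) : ℝ) = _
      rw [← hg s]
      rfl
    rw [this]
    exact (tu_map tu_int).submatrix _ _
  · intro s hs
    refine ⟨?_, fun h => ?_⟩
    · intro h0
      exact scol_ne_zero _ ((hg ⟨s, hs⟩).trans h0)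
    · have h1 : scol (g ⟨s, hs⟩) = s := hg ⟨s, hs⟩
      have h2 : scol (g ⟨-s, h⟩) = -s := hg ⟨-s, h⟩
      exact scol_ne_neg _ _ (h2.trans (congrArg Neg.neg h1.symm))

/-- the functional of the closed walk `C_σ` -/
noncomputable def Zf (σ : Fin m → Bool) : (Fin (4 * m) → ℝ) →ₗ[ℝ] ℝ :=
  ∑ i, zvec σ (eps m i) • LinearMap.proj i

omit [NeZero m] in
lemma Zf_apply (σ : Fin m → Bool) (x : Fin (4 * m) → ℝ) :
    Zf σ x = ∑ i, zvec σ (eps m i) * x i := by
  simp [Zf]

lemma Zf_scol (σ : Fin m → Bool) (k : Edge m ⊕ Vert m) :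
    Zf σ (fun i => ((scol k i : SignType) : ℝ)) = ∑ e, zvec σ e * ((col m k e : SignType) : ℝ) := by
  rw [Zf_apply]
  exact Equiv.sum_comp (eps m) (fun e => zvec σ e * ((col m k e : SignType) : ℝ))

lemma Zf_inl (σ : Fin m → Bool) (e : Edge m) :
    Zf σ (fun i => ((scol (Sum.inl e) i : SignType) : ℝ)) = zvec σ e := by
  rw [Zf_scol]
  simp only [col_inl]
  simp

lemma Zf_inr (σ : Fin m → Bool) (v : Vert m) :
    Zf σ (fun i => ((scol (Sum.inr v) i : SignType) : ℝ)) = 0 := by
  rw [Zf_scol]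
  simp only [col_inr]
  exact sum_zvec σ v

section

variable (S : Finset (Fin (4 * m) → SignType)) (hS : base m ⊆ S)

/-- the embedding of the columns of `[I | N]` -/
noncomputable def emb (k : Edge m ⊕ Vert m) : {s // s ∈ S} := ⟨scol k, hS (mem_base k)⟩

lemma emb_injective : Function.Injective (emb S hS) := by
  intro k l h
  exact scol_injective (congrArg Subtype.val h)

/-- the columns -/
def vec (s : {s // s ∈ S}) : Fin (4 * m) → ℝ := fun i => mat S i s

lemma vec_emb (k : Edge m ⊕ Vert m) :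
    vec S (emb S hS k) = fun i => ((scol k i : SignType) : ℝ) := rfl

lemma indep_of_rel (T : Set (Edge m ⊕ Vert m))
    (hT : ∀ c : Edge m ⊕ Vert m → ℝ, (∀ k, k ∉ T → c k = 0) →
      (∀ e, c (Sum.inl e) + c (Sum.inr (tgt e)) - c (Sum.inr (src e)) = 0) → ∀ k, c k = 0) :
    LinearIndepOn ℝ (vec S) (emb S hS '' T) := by
  refine LinearIndepOn.image_of_comp _ _ ?_
  rw [linearIndepOn_iff]
  intro l hl hrel
  refine Finsupp.ext fun k => hT l (fun k hk => ?_) (fun e => ?_) k
  · exact (Finsupp.mem_supported' ℝ l).1 hl k hk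
  · have h1 := congrFun hrel ((eps m).symm e)
    rw [Finsupp.linearCombination_apply, Finsupp.sum_fintype _ _ (fun k => by simp)] at h1
    rw [Finset.sum_apply] at h1
    rw [Fintype.sum_sum_type] at h1
    simp only [Pi.smul_apply, Function.comp_apply, vec_emb, smul_eq_mul, Pi.zero_apply] at h1
    have e1 : ∀ k : Edge m ⊕ Vert m, ((scol k ((eps m).symm e) : SignType) : ℝ) =
        ((col m k e : SignType) : ℝ) := by
      intro k
      simp [scol]
    simp only [e1, col_inl, col_inr, mul_sub, Finset.sum_sub_distrib] at h1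
    simp only [mul_ite, mul_one, mul_zero, Finset.sum_ite_eq, Finset.mem_univ, if_true] at h1
    linarith

/-- the spanning circuit of `F_σ` -/
def circ (σ : Fin m → Bool) : Set {s // s ∈ S} := emb S hS '' range (kmap σ)

lemma circ_ncard (σ : Fin m → Bool) : (circ S hS σ).ncard = 4 * m := by
  rw [circ, Set.ncard_image_of_injective _ (emb_injective S hS), ← Set.image_univ,
    Set.ncard_image_of_injective _ (kmap_injective σ), Set.ncard_univ, Nat.card_eq_fintype_card]
  simp only [Fintype.card_prod, Fintype.card_fin, Fintype.card_bool]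
  ring

lemma circ_subset (σ : Fin m → Bool) : circ S hS σ ⊆ zeroSet (vec S) (Zf σ) := by
  rintro _ ⟨_, ⟨⟨i, a, s⟩, rfl⟩, rfl⟩
  show Zf σ (vec S (emb S hS _)) = 0
  rw [vec_emb]
  cases a <;> cases s <;> simp only [kmap]
  · exact Zf_inr σ _
  · exact Zf_inr σ _
  · rw [Zf_inl]; simp [zvec]
  · rw [Zf_inl]; simp [zvec]

lemma circ_indep (σ : Fin m → Bool) (k : {s // s ∈ S}) (hk : k ∈ circ S hS σ) :
    LinearIndepOn ℝ (vec S) (circ S hS σ \ {k}) := by
  obtain ⟨k0, hk0, rfl⟩ := hk
  have : circ S hS σ \ {emb S hS k0} = emb S hS '' (range (kmap σ) \ {k0}) := by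
    rw [Set.image_sdiff (emb_injective S hS), Set.image_singleton]
    rfl
  rw [this]
  refine indep_of_rel S hS _ fun c hc hrel => ?_
  refine rel_kmap σ c (fun k hk => hc k fun h => hk h.1) hrel k0 hk0 (hc k0 fun h => h.2 rfl)

/-- the unit vectors -/
def units : Set {s // s ∈ S} := emb S hS '' range Sum.inl

lemma units_ncard : (units S hS).ncard = 4 * m := by
  rw [units, Set.ncard_image_of_injective _ (emb_injective S hS), ← Set.image_univ,
    Set.ncard_image_of_injective _ Sum.inl_injective, Set.ncard_univ, Nat.card_eq_fintype_card]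
  simp only [Fintype.card_prod, Fintype.card_fin, Fintype.card_bool]
  ring

lemma units_indep : LinearIndepOn ℝ (vec S) (units S hS) := by
  refine indep_of_rel S hS _ fun c hc hrel => ?_
  have h1 : ∀ v, c (Sum.inr v) = 0 := fun v => hc _ (by rintro ⟨e, he⟩; simp at he)
  rintro (e | v)
  · have := hrel e
    rw [h1, h1] at this
    linarith
  · exact h1 v

lemma units_isBase : (mtr S).IsBase (units S hS) :=
  (mtr_rep S).isBase (((mtr_rep S).indep _).2 (units_indep S hS)) (units_ncard S hS)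

omit [NeZero m] in
lemma vec_ne_zero (hG : Good S) (e : {s // s ∈ S}) : vec S e ≠ 0 := by
  intro h
  refine (hG.2 e.1 e.2).1 (funext fun i => cast_inj ?_)
  rw [Pi.zero_apply, SignType.coe_zero]
  exact congrFun h i

include hS in
lemma isFlacet (hG : Good S) (σ : Fin m → Bool) :
    IsFlacet (mtr S) (zeroSet (vec S) (Zf σ)) ∧
      (mtr S).eRk (zeroSet (vec S) (Zf σ)) = ((4 * m - 1 : ℕ) : ℕ∞) := by
  have hm : 0 < m := Nat.pos_of_ne_zero (NeZero.ne m)
  have hz : ∀ s, Zf σ (vec S (emb S hS (Sum.inl (0, σ 0, s)))) ≠ 0 := by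
    intro s
    rw [vec_emb, Zf_inl]
    simp [zvec]
  refine facet (mtr S) (vec S) (mtr_rep S) (Zf σ) (circ S hS σ) (circ_subset S hS σ)
    (circ_ncard S hS σ) (circ_indep S hS σ) (emb S hS (Sum.inl (0, σ 0, false))) (hz false)
    (vec_ne_zero S hG) (units S hS) (units_isBase S hS) ?_
  have hsub : units S hS ∩ zeroSet (vec S) (Zf σ) ⊆ (units S hS \
      {emb S hS (Sum.inl (0, σ 0, false))}) \ {emb S hS (Sum.inl (0, σ 0, true))} := by
    rintro x ⟨hx, hx'⟩
    refine ⟨⟨hx, ?_⟩, ?_⟩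
    · intro h
      exact hz false (h ▸ hx')
    · intro h
      exact hz true (h ▸ hx')
  have h1 := Set.ncard_le_ncard hsub (Set.toFinite _)
  rw [Set.ncard_sdiff_singleton_of_mem, Set.ncard_sdiff_singleton_of_mem, units_ncard] at h1
  · omega
  · exact ⟨_, ⟨_, rfl⟩, rfl⟩
  · refine ⟨⟨_, ⟨_, rfl⟩, rfl⟩, fun h => ?_⟩
    have := emb_injective S hS h
    simp at this

/-- the hyperplanes `F_σ` are separated by bases with one element outside -/
lemma sep (σ τ : Fin m → Bool) (B : Set {s // s ∈ S})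
    (hspan : Submodule.span ℝ (vec S '' B) = ⊤) (e : {s // s ∈ S})
    (hσ : ∀ x ∈ B, x ≠ e → Zf σ (vec S x) = 0) (hτ : ∀ x ∈ B, x ≠ e → Zf τ (vec S x) = 0)
    (heτ : Zf τ (vec S e) ≠ 0) : σ = τ := by
  set W : (Fin (4 * m) → ℝ) →ₗ[ℝ] ℝ := Zf τ (vec S e) • Zf σ - Zf σ (vec S e) • Zf τ with hW
  have hW0 : W = 0 := by
    refine LinearMap.ext_on hspan ?_
    rintro _ ⟨x, hx, rfl⟩
    by_cases hxe : x = e
    · subst hxe
      simp only [hW, LinearMap.sub_apply, LinearMap.smul_apply, smul_eq_mul, LinearMap.zero_apply]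
      ring
    · simp only [hW, LinearMap.sub_apply, LinearMap.smul_apply, smul_eq_mul, LinearMap.zero_apply,
        hσ x hx hxe, hτ x hx hxe, mul_zero, sub_zero]
  funext i
  by_contra hne
  have h1 := LinearMap.congr_fun hW0 (fun j => ((scol (Sum.inl (i, σ i, false)) j : SignType) : ℝ))
  rw [hW, LinearMap.sub_apply, LinearMap.smul_apply, LinearMap.smul_apply, Zf_inl, Zf_inl,
    LinearMap.zero_apply] at h1
  simp only [zvec, if_true, if_neg hne, smul_eq_mul, mul_one, mul_zero, sub_zero] at h1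
  exact heτ h1

include hS in
/-- **each basis hits at most `4m` of the flacets `F_σ`** -/
lemma hits_le (B : Set {s // s ∈ S}) (hB : (mtr S).IsBase B) :
    {σ : Fin m → Bool | (B ∩ zeroSet (vec S) (Zf σ)).encard = ((4 * m - 1 : ℕ) : ℕ∞)}.ncard ≤
      4 * m := by
  classical
  have hm : 0 < m := Nat.pos_of_ne_zero (NeZero.ne m)
  have hBc : B.ncard = 4 * m := by
    rw [hB.ncard_eq_ncard_of_isBase (units_isBase S hS), units_ncard]
  have hBi : LinearIndepOn ℝ (vec S) B := ((mtr_rep S).indep B).1 hB.indep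
  have hspan : Submodule.span ℝ (vec S '' B) = ⊤ := by
    refine Submodule.eq_top_of_finrank_eq ?_
    rw [finrank_span_image (vec S) B hBi, hBc, Module.finrank_fin_fun]
  have hone : ∀ σ ∈ {σ : Fin m → Bool |
      (B ∩ zeroSet (vec S) (Zf σ)).encard = ((4 * m - 1 : ℕ) : ℕ∞)},
      ∃ e, B \ zeroSet (vec S) (Zf σ) = {e} := by
    intro σ hσ
    rw [← Set.ncard_eq_one]
    have h1 : (B ∩ zeroSet (vec S) (Zf σ)).encard = ((4 * m - 1 : ℕ) : ℕ∞) := hσ
    rw [← (Set.toFinite (B ∩ zeroSet (vec S) (Zf σ))).cast_ncard_eq] at h1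
    have h2 : (B ∩ zeroSet (vec S) (Zf σ)).ncard = 4 * m - 1 := by exact_mod_cast h1
    have h3 := Set.ncard_inter_add_ncard_sdiff_eq_ncard B (zeroSet (vec S) (Zf σ)) (Set.toFinite _)
    omega
  have : Nonempty {s // s ∈ S} := ⟨emb S hS (Sum.inr (Sum.inl 0))⟩
  choose! f hf using hone
  refine le_trans (Set.ncard_le_ncard_of_injOn (t := B) f ?_ ?_ (Set.toFinite _)) hBc.le
  · intro σ hσ
    have : f σ ∈ B \ zeroSet (vec S) (Zf σ) := by rw [hf σ hσ]; rfl
    exact this.1
  · intro σ hσ τ hτ hστ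
    have h1 : f τ ∈ B \ zeroSet (vec S) (Zf τ) := by rw [hf τ hτ]; rfl
    refine sep S σ τ B hspan (f τ) ?_ ?_ h1.2
    · intro x hx hxe
      by_contra h
      have : x ∈ B \ zeroSet (vec S) (Zf σ) := ⟨hx, h⟩
      rw [hf σ hσ, hστ] at this
      exact hxe this
    · intro x hx hxe
      by_contra h
      have : x ∈ B \ zeroSet (vec S) (Zf τ) := ⟨hx, h⟩
      rw [hf τ hτ] at this
      exact hxe this

include hS in
lemma count (hG : Good S) (𝒱 : Finset (Set {s // s ∈ S})) (h𝒱 : IsHitting (mtr S) 𝒱) :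
    2 ^ m ≤ 4 * m * 𝒱.card := by
  classical
  have h1 : (Finset.univ : Finset (Fin m → Bool)) ⊆ 𝒱.biUnion (fun B => Finset.univ.filter
      fun σ => (B ∩ zeroSet (vec S) (Zf σ)).encard = ((4 * m - 1 : ℕ) : ℕ∞)) := by
    intro σ _
    obtain ⟨hF, hrk⟩ := isFlacet S hS hG σ
    obtain ⟨B, hB, hBF⟩ := h𝒱.2 _ hF
    rw [Finset.mem_biUnion]
    exact ⟨B, hB, by rw [Finset.mem_filter]; exact ⟨Finset.mem_univ _, hBF.trans hrk⟩⟩
  have h2 := Finset.card_le_card h1
  have h3 : (Finset.univ : Finset (Fin m → Bool)).card = 2 ^ m := by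
    rw [Finset.card_univ]
    simp
  rw [h3] at h2
  refine h2.trans (le_trans (Finset.card_biUnion_le_card_mul _ _ (4 * m) fun B hB => ?_)
    (le_of_eq (mul_comm _ _)))
  have := hits_le S hS B (h𝒱.1 B hB)
  rw [Set.ncard_eq_toFinset_card'] at this
  refine le_trans (le_of_eq ?_) this
  congr 1
  ext σ
  simp

end

/-- the family of all bases is a hitting family -/
lemma exists_hitting {α : Type} [Fintype α] (M : Matroid α) (hE : M.E = univ) :
    ∃ 𝒱 : Finset (Set α), IsHitting M 𝒱 := by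
  classical
  refine ⟨Finset.univ.filter fun B => M.IsBase B, fun B hB => (Finset.mem_filter.1 hB).2, ?_⟩
  intro F _
  obtain ⟨I, hI⟩ := M.exists_isBasis F (by rw [hE]; exact Set.subset_univ _)
  obtain ⟨B, hB, hIB⟩ := hI.indep.exists_isBase_superset
  refine ⟨B, Finset.mem_filter.2 ⟨Finset.mem_univ _, hB⟩, ?_⟩
  rw [hI.eRk_eq_encard]
  congr 1
  exact (hI.eq_of_subset_indep (hB.indep.subset Set.inter_subset_left)
    (Set.subset_inter hIB hI.subset) Set.inter_subset_right).symm

lemma rank_mat (S : Finset (Fin (4 * m) → SignType)) (hS : base m ⊆ S) :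
    (mat S).rank = 4 * m := by
  rw [Matrix.rank_eq_finrank_span_cols]
  have h1 : Submodule.span ℝ (vec S '' (units S hS)) ≤
      Submodule.span ℝ (Set.range (mat S).col) := by
    refine Submodule.span_mono ?_
    rintro _ ⟨x, _, rfl⟩
    exact ⟨x, rfl⟩
  have h2 := Submodule.finrank_mono h1
  rw [finrank_span_image (vec S) _ (units_indep S hS), units_ncard] at h2
  have h3 := Submodule.finrank_le (Submodule.span ℝ (Set.range (mat S).col))
  rw [Module.finrank_fin_fun] at h3
  omega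

/-- **the exponential lower bound** -/
theorem exponential (m : ℕ) (hm : 1 ≤ m) : ∃ (α : Type) (_ : Fintype α) (M : Matroid α),
    IsCompleteRegular (4 * m) M ∧ (∀ e f, M.Indep {e, f}) ∧
      2 ^ m ≤ 4 * m * hittingNumber M := by
  classical
  have : NeZero m := ⟨by omega⟩
  obtain ⟨S, hS, hG, hmax⟩ := exists_complete (base m) good_base
    ⟨scol (Sum.inr (Sum.inl 0)), mem_base _⟩
  refine ⟨{s // s ∈ S}, inferInstance, mtr S, ⟨mat S, rank_mat S hS, hmax, rfl,
    (mtr_rep S).indep⟩, mtr_simple hG, ?_⟩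
  obtain ⟨𝒱₀, h𝒱₀⟩ := exists_hitting (mtr S) rfl
  have hne : {n | ∃ 𝒱 : Finset (Set {s // s ∈ S}), IsHitting (mtr S) 𝒱 ∧ 𝒱.card = n}.Nonempty :=
    ⟨_, 𝒱₀, h𝒱₀, rfl⟩
  obtain ⟨𝒱, h𝒱, hc⟩ := Nat.sInf_mem hne
  have := count S hS hG 𝒱 h𝒱
  rw [hc] at this
  exact this

lemma eventually_lt (q : Polynomial ℝ) : ∀ᶠ n : ℕ in Filter.atTop, q.eval (n : ℝ) < 2 ^ n := by
  have h : Filter.Tendsto (fun n : ℕ => q.eval (n : ℝ) / 2 ^ n) Filter.atTop (nhds 0) := by
    have h1 : ∀ n : ℕ, q.eval (n : ℝ) / 2 ^ n =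
        ∑ i ∈ Finset.range (q.natDegree + 1), q.coeff i * ((n : ℝ) ^ i / 2 ^ n) := by
      intro n
      rw [Polynomial.eval_eq_sum_range, Finset.sum_div]
      exact Finset.sum_congr rfl fun i _ => by ring
    simp only [h1]
    have h2 : (0 : ℝ) = ∑ i ∈ Finset.range (q.natDegree + 1), q.coeff i * 0 := by simp
    rw [h2]
    refine tendsto_finsetSum _ fun i _ => ?_
    exact (tendsto_pow_const_div_const_pow_of_one_lt i (by norm_num : (1 : ℝ) < 2)).const_mul _
  have := h.eventually (gt_mem_nhds (show (0 : ℝ) < 1 by norm_num))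
  filter_upwards [this] with n hn
  rwa [div_lt_one (by positivity)] at hn

/-- **no polynomial bound** -/
theorem superpolynomial (p : Polynomial ℝ) : ∃ (r : ℕ) (α : Type) (_ : Fintype α)
    (M : Matroid α), IsCompleteRegular r M ∧ (∀ e f, M.Indep {e, f}) ∧
      p.eval (r : ℝ) < hittingNumber M := by
  obtain ⟨m, hm, hm1⟩ := ((eventually_lt (Polynomial.C 4 * Polynomial.X *
    p.comp (Polynomial.C 4 * Polynomial.X))).and (Filter.eventually_ge_atTop 1)).exists
  obtain ⟨α, _, M, hc, hs, hle⟩ := exponential m hm1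
  refine ⟨4 * m, α, inferInstance, M, hc, hs, ?_⟩
  simp only [Polynomial.eval_mul, Polynomial.eval_C, Polynomial.eval_X, Polynomial.eval_comp] at hm
  have h1 : (2 : ℝ) ^ m ≤ 4 * m * hittingNumber M := by exact_mod_cast hle
  have h2 : (4 * m : ℝ) * p.eval (4 * m : ℝ) < 4 * m * hittingNumber M := lt_of_lt_of_le hm h1
  have h3 : (0 : ℝ) < 4 * m := by
    have : (1 : ℝ) ≤ m := by exact_mod_cast hm1
    linarith
  have := lt_of_mul_lt_mul_left h2 h3.le
  push_cast
  exact this

end Pool.Agent.H140.HN
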