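import Pool.Agent.H140.HN.Facet
import Pool.Agent.H478R3.Rad.TU

set_option autoImplicit false

/-!
# The necklace network matrix
-/

namespace Pool.Agent.H140.HN

open Set Matrix

/-- the edges of the necklace: `(i, a, false)` goes from `t_i` to `x_i^a`, and `(i, a, true)` goes
from `x_i^a` to `t_{i+1}` -/
abbrev Edge (m : ℕ) : Type := Fin m × Bool × Bool

/-- the vertices of the necklace: the `t_i` and the `x_i^a` -/
abbrev Vert (m : ℕ) : Type := Fin m ⊕ (Fin m × Bool)

variable {m : ℕ} [NeZero m]

/-- the tail of an edge -/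
def src : Edge m → Vert m
  | (i, _, false) => Sum.inl i
  | (i, a, true) => Sum.inr (i, a)

/-- the head of an edge -/
def tgt : Edge m → Vert m
  | (i, a, false) => Sum.inr (i, a)
  | (i, _, true) => Sum.inl (i + 1)

/-- the network matrix over the integers -/
def net (m : ℕ) [NeZero m] : Matrix (Edge m) (Vert m) ℤ := fun e v =>
  if tgt e = v then 1 else if src e = v then -1 else 0

lemma src_ne_tgt (e : Edge m) : src e ≠ tgt e := by
  obtain ⟨i, a, s⟩ := e
  cases s <;> simp [src, tgt]

lemma net_NW : Pool.Agent.H478R3.Rad.NW (net m) := by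
  intro e
  refine ⟨fun v => ?_, fun v w h1 h2 => ?_, fun v w h1 h2 => ?_⟩
  · unfold net
    split_ifs <;> simp
  · unfold net at h1 h2
    have h1' : tgt e = v := by
      by_contra h
      rw [if_neg h] at h1
      split_ifs at h1
      all_goals omega
    have h2' : tgt e = w := by
      by_contra h
      rw [if_neg h] at h2
      split_ifs at h2
      all_goals omega
    rw [← h1', ← h2']
  · unfold net at h1 h2
    have h1' : src e = v := by
      by_contra h
      rw [if_neg h] at h1
      split_ifs at h1
    have h2' : src e = w := by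
      by_contra h
      rw [if_neg h] at h2
      split_ifs at h2
    rw [← h1', ← h2']

/-- the matrix `[I | N]` is totally unimodular over the integers -/
lemma tu_int : (Matrix.fromCols (1 : Matrix (Edge m) (Edge m) ℤ) (net m)).IsTotallyUnimodular :=
  (Pool.Agent.H478R3.Rad.NW.tu net_NW).one_fromCols

lemma tu_map {ι κ : Type} {A : Matrix ι κ ℤ} (h : A.IsTotallyUnimodular) :
    (A.map (Int.castRingHom ℝ)).IsTotallyUnimodular := by
  rw [Matrix.isTotallyUnimodular_iff] at h ⊢
  intro k f g
  obtain ⟨s, hs⟩ := h k f g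
  refine ⟨s, ?_⟩
  have h1 : (A.map (Int.castRingHom ℝ)).submatrix f g =
      (Int.castRingHom ℝ).mapMatrix (A.submatrix f g) := rfl
  rw [h1, ← RingHom.map_det, ← hs]
  cases s <;> simp

/-- the columns of the matrix `[I | N]`, as sign vectors -/
def col (m : ℕ) [NeZero m] : Edge m ⊕ Vert m → Edge m → SignType
  | Sum.inl e, e' => if e' = e then 1 else 0
  | Sum.inr v, e' => if tgt e' = v then 1 else if src e' = v then -1 else 0

lemma col_real (k : Edge m ⊕ Vert m) (e : Edge m) : ((col m k e : SignType) : ℝ) =
    ((Matrix.fromCols (1 : Matrix (Edge m) (Edge m) ℤ) (net m)).map (Int.castRingHom ℝ)) e k := by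
  rcases k with k | v
  · by_cases h : e = k
    · simp [col, h]
    · simp [col, h]
  · simp only [col, net, Matrix.map_apply, Matrix.fromCols_apply_inr]
    split_ifs <;> simp

lemma col_inl (e' e : Edge m) : ((col m (Sum.inl e') e : SignType) : ℝ) = if e = e' then 1 else 0 := by
  simp only [col]
  split_ifs <;> simp

lemma col_inr (v : Vert m) (e : Edge m) : ((col m (Sum.inr v) e : SignType) : ℝ) =
    (if tgt e = v then 1 else 0) - (if src e = v then 1 else 0) := by
  simp only [col]
  by_cases h1 : tgt e = v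
  · have h2 : src e ≠ v := fun h => src_ne_tgt e (h.trans h1.symm)
    simp [h1, h2]
  · by_cases h2 : src e = v <;> simp [h1, h2]

omit [NeZero m] in
lemma exists_src (v : Vert m) : ∃ e : Edge m, src e = v := by
  rcases v with i | ⟨i, a⟩
  · exact ⟨(i, false, false), rfl⟩
  · exact ⟨(i, a, true), rfl⟩

lemma exists_tgt (v : Vert m) : ∃ e : Edge m, tgt e = v := by
  rcases v with i | ⟨i, a⟩
  · exact ⟨(i - 1, false, true), by simp [tgt]⟩
  · exact ⟨(i, a, false), rfl⟩

lemma col_injective : Function.Injective (col m) := by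
  intro k l h
  rcases k with e | v <;> rcases l with e' | v'
  · have h1 := congrFun h e
    simp only [col, if_true] at h1
    by_cases h2 : e = e'
    · rw [h2]
    · rw [if_neg h2] at h1; exact absurd h1 (by decide)
  · exfalso
    obtain ⟨e', he'⟩ := exists_src v'
    have h1 := congrFun h e'
    have h2 : tgt e' ≠ v' := fun h => src_ne_tgt e' (he'.trans h.symm)
    simp only [col] at h1
    rw [if_neg h2, if_pos he'] at h1
    split_ifs at h1
  · exfalso
    obtain ⟨e, he⟩ := exists_src v
    have h1 := congrFun h e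
    have h2 : tgt e ≠ v := fun h => src_ne_tgt e (he.trans h.symm)
    simp only [col] at h1
    rw [if_neg h2, if_pos he] at h1
    split_ifs at h1
  · obtain ⟨e, he⟩ := exists_tgt v
    have h1 := congrFun h e
    simp only [col] at h1
    rw [if_pos he] at h1
    by_cases h2 : tgt e = v'
    · rw [← he, h2]
    · rw [if_neg h2] at h1
      split_ifs at h1

lemma col_ne_zero (k : Edge m ⊕ Vert m) : col m k ≠ 0 := by
  intro h
  rcases k with e | v
  · have := congrFun h e
    simp [col] at this
  · obtain ⟨e, he⟩ := exists_tgt v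
    have := congrFun h e
    simp [col, he] at this

lemma col_inl_ne_neg (e : Edge m) (v : Vert m) : col m (Sum.inl e) ≠ - col m (Sum.inr v) := by
  intro h
  obtain ⟨e', he'⟩ := exists_tgt v
  have h1 := congrFun h e'
  simp only [col, Pi.neg_apply] at h1
  rw [if_pos he'] at h1
  split_ifs at h1

lemma col_ne_neg (k l : Edge m ⊕ Vert m) : col m k ≠ - col m l := by
  rcases k with e | v <;> rcases l with e' | w
  · intro h
    have h1 := congrFun h e
    simp only [col, Pi.neg_apply, if_true] at h1
    split_ifs at h1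
  · exact col_inl_ne_neg e w
  · intro h
    refine col_inl_ne_neg e' v ?_
    rw [h, neg_neg]
  · intro h
    -- `tgt e = v` implies `src e = w`
    have key : ∀ e, tgt e = v → src e = w := by
      intro e he
      have h1 := congrFun h e
      simp only [col, Pi.neg_apply] at h1
      rw [if_pos he] at h1
      by_contra hne
      rw [if_neg hne] at h1
      split_ifs at h1
    have key2 : ∀ e, src e = w → tgt e = v := by
      intro e he
      have h1 := congrFun h e
      simp only [col, Pi.neg_apply] at h1
      have h2 : tgt e ≠ w := fun h => src_ne_tgt e (he.trans h.symm)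
      rw [if_neg h2, if_pos he] at h1
      by_contra hne
      rw [if_neg hne] at h1
      split_ifs at h1
    rcases v with i | ⟨i, a⟩
    · have h1 := key (i - 1, false, true) (by simp [tgt])
      have h2 := key (i - 1, true, true) (by simp [tgt])
      rw [← h1] at h2
      simp [src] at h2
    · have h1 := key (i, a, false) rfl
      have h2 := key2 (i, !a, false) (by rw [← h1]; rfl)
      simp [tgt] at h2

/-- the functional `z_σ`, the indicator of the closed walk `C_σ` -/
def zvec (σ : Fin m → Bool) (e : Edge m) : ℝ := if e.2.1 = σ e.1 then 1 else 0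

/-- the circuit `K_σ` -/
def kmap (σ : Fin m → Bool) : Fin m × Bool × Bool → Edge m ⊕ Vert m
  | (i, true, s) => Sum.inl (i, !(σ i), s)
  | (i, false, false) => Sum.inr (Sum.inl i)
  | (i, false, true) => Sum.inr (Sum.inr (i, σ i))

omit [NeZero m] in
lemma kmap_injective (σ : Fin m → Bool) : Function.Injective (kmap σ) := by
  rintro ⟨i, a, s⟩ ⟨j, b, t⟩ h
  cases a <;> cases b <;> cases s <;> cases t <;> simp [kmap] at h <;> simp_all

lemma sum_zvec (σ : Fin m → Bool) (v : Vert m) :
    ∑ e : Edge m, zvec σ e * ((if tgt e = v then 1 else 0) - (if src e = v then 1 else 0)) =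
      (0 : ℝ) := by
  rw [Fintype.sum_prod_type]
  have h1 : ∀ i : Fin m, ∑ y : Bool × Bool, zvec σ (i, y) *
      ((if tgt (i, y) = v then 1 else 0) - (if src (i, y) = v then 1 else 0)) =
      (if (Sum.inl (i + 1) : Vert m) = v then (1 : ℝ) else 0) -
        (if (Sum.inl i : Vert m) = v then 1 else 0) := by
    intro i
    rw [Fintype.sum_prod_type]
    simp only [Fintype.sum_bool, zvec, tgt, src]
    cases σ i <;> simp <;> ring_nf
  rw [Finset.sum_congr rfl fun i _ => h1 i, Finset.sum_sub_distrib, sub_eq_zero]
  exact Equiv.sum_comp (Equiv.addRight (1 : Fin m))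
    (fun i => if (Sum.inl i : Vert m) = v then (1 : ℝ) else 0)

lemma rel_kmap (σ : Fin m → Bool) (c : Edge m ⊕ Vert m → ℝ)
    (hsupp : ∀ k, k ∉ range (kmap σ) → c k = 0)
    (hrel : ∀ e, c (Sum.inl e) + c (Sum.inr (tgt e)) - c (Sum.inr (src e)) = 0)
    (k0 : Edge m ⊕ Vert m) (hk0 : k0 ∈ range (kmap σ)) (h0 : c k0 = 0) : ∀ k, c k = 0 := by
  have hC : ∀ i s, c (Sum.inl (i, σ i, s)) = 0 := by
    intro i s
    refine hsupp _ ?_
    rintro ⟨⟨j, a, t⟩, h⟩
    cases a <;> cases t <;> simp [kmap] at h
    all_goals
      obtain ⟨h1, h2, h3⟩ := h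
      subst h1
      simp at h2
  have hV : ∀ i, c (Sum.inr (Sum.inr (i, !(σ i)))) = 0 := by
    intro i
    refine hsupp _ ?_
    rintro ⟨⟨j, a, t⟩, h⟩
    cases a <;> cases t <;> simp [kmap] at h
    obtain ⟨h1, h2⟩ := h
    subst h1
    simp at h2
  have h1 : ∀ i, c (Sum.inr (Sum.inr (i, σ i))) = c (Sum.inr (Sum.inl i)) := by
    intro i
    have := hrel (i, σ i, false)
    rw [hC] at this
    simp only [tgt, src] at this
    linarith
  have h2 : ∀ i, c (Sum.inr (Sum.inl (i + 1))) = c (Sum.inr (Sum.inr (i, σ i))) := by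
    intro i
    have := hrel (i, σ i, true)
    rw [hC] at this
    simp only [tgt, src] at this
    linarith
  have h3 : ∀ (n : ℕ) (hn : n < m), c (Sum.inr (Sum.inl ⟨n, hn⟩)) = c (Sum.inr (Sum.inl 0)) := by
    intro n
    induction n with
    | zero => intro hn; rfl
    | succ n ih =>
      intro hn
      have : (⟨n + 1, hn⟩ : Fin m) = ⟨n, by omega⟩ + 1 := by
        apply Fin.ext
        simp only [Fin.val_add, Fin.val_one']
        rw [Nat.add_mod_mod, Nat.mod_eq_of_lt hn]
      rw [this, h2, h1, ih]
  have h3' : ∀ i, c (Sum.inr (Sum.inl i)) = c (Sum.inr (Sum.inl 0)) := fun i => h3 i.val i.isLt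
  have h4 : ∀ i, c (Sum.inl (i, !(σ i), false)) = c (Sum.inr (Sum.inl 0)) := by
    intro i
    have := hrel (i, !(σ i), false)
    simp only [tgt, src] at this
    rw [hV, h3'] at this
    linarith
  have h5 : ∀ i, c (Sum.inl (i, !(σ i), true)) = - c (Sum.inr (Sum.inl 0)) := by
    intro i
    have := hrel (i, !(σ i), true)
    simp only [tgt, src] at this
    rw [hV, h3'] at this
    linarith
  have hl : c (Sum.inr (Sum.inl 0)) = 0 := by
    obtain ⟨⟨i, a, s⟩, rfl⟩ := hk0
    cases a <;> cases s <;> simp only [kmap] at h0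
    · rw [h3'] at h0; exact h0
    · rw [h1, h3'] at h0; exact h0
    · rw [h4] at h0; exact h0
    · rw [h5] at h0; linarith
  intro k
  by_cases hk : k ∈ range (kmap σ)
  · obtain ⟨⟨i, a, s⟩, rfl⟩ := hk
    cases a <;> cases s <;> simp only [kmap]
    · rw [h3', hl]
    · rw [h1, h3', hl]
    · rw [h4, hl]
    · rw [h5, hl, neg_zero]
  · exact hsupp k hk

end Pool.Agent.H140.HN
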